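import Mathlib
import Pool.Agent.H13.Hold2

namespace Pool.Agent.Results.MP_fe2450_an.Holder

open Set Filter Topology MeasureTheory Pool.Agent.H13.Hold

theorem main {p : ℝ} (hp1 : 1 < p) (hp2 : p ≤ 2) : ∃ α : ℝ, 0 < α ∧ α ≤ 1 ∧
    ∀ f : C(UnitAddCircle, ℝ), ∃ h : UnitAddCircle ≃ₜ UnitAddCircle,
      (∀ x y, dist (h x) (h y) ≤ 8 * dist x y ^ α) ∧
      Summable fun n : ℤ => ‖fourierCoeff (fun x => (f (h x) : ℂ)) n‖ ^ p := by
  obtain ⟨N₀, hN₀⟩ := exists_nat_gt (1 / (p - 1))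
  set N := N₀ + 2 with hN
  have hN2 : 2 ≤ N := by omega
  have hNp : 1 < (N : ℝ) * (p - 1) := by
    rw [div_lt_iff₀ (by linarith)] at hN₀
    rw [hN]; push_cast; nlinarith
  have hβ : 4 ≤ 2 ^ N := by
    calc 4 = 2 ^ 2 := by norm_num
      _ ≤ 2 ^ N := Nat.pow_le_pow_right (by norm_num) hN2
  have hb : (4 : ℝ) ≤ 2 ^ N := by exact_mod_cast hβ
  have hβp : (2 : ℝ) < ((2 ^ N : ℕ) : ℝ) ^ (p - 1) := by
    push_cast
    rw [← Real.rpow_natCast, ← Real.rpow_mul (by norm_num)]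
    calc (2 : ℝ) = 2 ^ (1 : ℝ) := by norm_num
      _ < _ := Real.rpow_lt_rpow_of_exponent_lt (by norm_num) hNp
  have hN0 : (0 : ℝ) < N := by exact_mod_cast (by omega : 0 < N)
  refine ⟨(N : ℝ)⁻¹, by positivity, inv_le_one_of_one_le₀ (by exact_mod_cast (by omega : 1 ≤ N)), ?_⟩
  intro f
  have huc := Metric.uniformContinuous_iff.1 (CompactSpace.uniformContinuous_of_continuous f.continuous)
  have hδ : ∀ M : ℕ, ∃ δ > 0, ∀ u v : UnitAddCircle, dist u v ≤ δ →
      dist (f u) (f v) ≤ (2 / (2 : ℝ) ^ N) ^ M := by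
    intro M
    obtain ⟨δ, h0, h1⟩ := huc ((2 / (2 : ℝ) ^ N) ^ M) (by positivity)
    exact ⟨δ / 2, by linarith, fun u v h => (h1 (by linarith)).le⟩
  choose δ hδ0 hδ using hδ
  obtain ⟨H, hm, hper, hh, hbad⟩ := exists_lift hb δ hδ0
  have hhol := holder_real hN2 hm.monotone hh
  have hc := continuous_of_holder (by positivity) hhol
  obtain ⟨h, hF⟩ := exists_homeo hm hc hper
  refine ⟨h, holder_circle hF hhol, ?_⟩
  let g : C(UnitAddCircle, ℂ) := ⟨fun x => (f (h x) : ℂ), by fun_prop⟩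
  refine summable_of_modulus hp1 hp2 hβ hβp g (32 * ‖f‖ ^ 2 + 1) fun M => ?_
  push_cast
  set b : ℝ := 2 ^ N with hbdef
  have hb0 : 0 < b := by linarith
  set t : ℝ := (1 / b) ^ (M + 1) / 2 with ht
  have ht0 : 0 ≤ t := by positivity
  have hib : 1 / b ≤ 1 := by rw [div_le_one hb0]; linarith
  have ht1 : t ≤ (1 / b) ^ M := by
    have : (0 : ℝ) < (1 / b) ^ M := by positivity
    rw [ht, pow_succ]; nlinarith
  obtain ⟨B, hBm, hBv, hB⟩ := hbad M t ht0 ht1
  have hBf : volume B ≠ ⊤ := ne_top_of_le_ne_top ENNReal.ofReal_ne_top hBv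
  have hρ : (2 / b) ^ M ≤ 1 := pow_le_one₀ (by positivity) (by rw [div_le_one hb0]; linarith)
  have hρ0 : 0 < (2 / b) ^ M := by positivity
  have hi1 : IntegrableOn (B.indicator fun _ => 4 * ‖f‖ ^ 2) (Ioc (0 : ℝ) 1) :=
    (integrable_const _).indicator hBm
  have hle : (∫ x in Ioc (0 : ℝ) 1, ‖g ((x + t : ℝ) : UnitAddCircle) - g (x : ℝ)‖ ^ 2)
      ≤ ∫ x in Ioc (0 : ℝ) 1, (B.indicator (fun _ => 4 * ‖f‖ ^ 2) x + (2 / b) ^ M) := by
    refine setIntegral_mono_on ?_ (hi1.add (integrable_const _)) measurableSet_Ioc fun x hx => ?_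
    · have c1 : Continuous fun x : ℝ => ((x : ℝ) : UnitAddCircle) := AddCircle.continuous_mk' 1
      have c2 : Continuous fun x : ℝ => ((x + t : ℝ) : UnitAddCircle) :=
        c1.comp (continuous_add_const t)
      have : Continuous fun x : ℝ => ‖g ((x + t : ℝ) : UnitAddCircle) - g (x : ℝ)‖ ^ 2 :=
        (((g.continuous.comp c2).sub (g.continuous.comp c1)).norm).pow 2
      exact this.integrableOn_Ioc
    · have e : ‖g ((x + t : ℝ) : UnitAddCircle) - g (x : ℝ)‖
          = dist (f ((H (x + t) : ℝ) : UnitAddCircle)) (f ((H x : ℝ) : UnitAddCircle)) := by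
        simp only [g, ContinuousMap.coe_mk, hF]
        rw [← Complex.ofReal_sub, Complex.norm_real, dist_eq_norm]
      rw [e]
      by_cases hx' : x ∈ B
      · rw [indicator_of_mem hx']
        have a1 := f.norm_coe_le_norm ((H (x + t) : ℝ) : UnitAddCircle)
        have a2 := f.norm_coe_le_norm ((H x : ℝ) : UnitAddCircle)
        have a3 := dist_le_norm_add_norm (f ((H (x + t) : ℝ) : UnitAddCircle))
          (f ((H x : ℝ) : UnitAddCircle))
        have a4 := pow_le_pow_left₀ dist_nonneg (a3.trans (add_le_add a1 a2)) 2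
        nlinarith
      · rw [indicator_of_notMem hx', zero_add]
        have a1 := hB x hx hx'
        have a2 : H x ≤ H (x + t) := hm.monotone (by linarith)
        have a3 := hδ M _ _ ((dist_coe_le (H (x + t)) (H x)).trans (by
          rw [abs_of_nonneg (by linarith)]; exact a1))
        have a4 := pow_le_pow_left₀ dist_nonneg a3 2
        nlinarith
  refine hle.trans ?_
  rw [integral_add hi1 (integrable_const _), integral_indicator hBm]
  simp only [integral_const, smul_eq_mul]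
  have v1 : ((volume.restrict (Ioc (0 : ℝ) 1)).restrict B).real univ
      ≤ 8 * (M + 1) * (2 / b) ^ M := by
    rw [Measure.real, Measure.restrict_apply_univ]
    refine ENNReal.toReal_le_of_le_ofReal (by positivity) ?_
    exact (Measure.restrict_apply_le _ _).trans hBv
  have v2 : (volume.restrict (Ioc (0 : ℝ) 1)).real univ = 1 := by simp
  rw [v2]
  have v3 := mul_le_mul_of_nonneg_right v1 (show 0 ≤ 4 * ‖f‖ ^ 2 by positivity)
  have v4 : (0 : ℝ) ≤ M * (2 / b) ^ M := by positivity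
  nlinarith

theorem result (p : ℝ) (hp : 1 < p) : ∃ α : ℝ, 0 < α ∧ α ≤ 1 ∧
    ∀ f : C(UnitAddCircle, ℝ), ∃ (h : UnitAddCircle ≃ₜ UnitAddCircle) (C : ℝ),
      (∀ x y, dist (h x) (h y) ≤ C * dist x y ^ α) ∧
      Summable fun n : ℤ => ‖fourierCoeff (fun x => (f (h x) : ℂ)) n‖ ^ p := by
  obtain ⟨α, h0, h1, h2⟩ := main (p := min p 2) (lt_min hp (by norm_num)) (min_le_right _ _)
  refine ⟨α, h0, h1, fun f => ?_⟩
  obtain ⟨h, h3, h4⟩ := h2 f
  refine ⟨h, 8, h3, Summable.of_norm_bounded_eventually h4 ?_⟩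
  have hq : 0 < min p 2 := lt_min (by linarith) (by norm_num)
  filter_upwards [h4.tendsto_cofinite_zero.eventually (gt_mem_nhds zero_lt_one)] with n hn
  rw [Real.norm_eq_abs, abs_of_nonneg (by positivity)]
  refine Real.rpow_le_rpow_of_exponent_ge' (norm_nonneg _) ?_ hq.le (min_le_left _ _)
  by_contra hc
  exact absurd hn (not_lt.2 (Real.one_le_rpow (le_of_not_ge hc) hq.le))

end Pool.Agent.Results.MP_fe2450_an.Holder
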